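import Mathlib
import Pool.Agent.Helper40.Free.FDefs

/-!
Definitions used in the statement on group extensions of affine transformations of the torus.
-/

namespace Pool.Agent.Helper16.BZP

universe u

/-- the affine transformation `x ↦ A x + β` of the torus `T^r` -/
noncomputable def aff {r : ℕ} (A : Matrix (Fin r) (Fin r) ℤ) (β : UnitAddTorus (Fin r)) :
    C(UnitAddTorus (Fin r), UnitAddTorus (Fin r)) :=
  ⟨fun x i => (∑ j, A i j • x j) + β i, by fun_prop⟩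

/-- `A` is unipotent and no character `X ≠ 0` of the torus with `X A = X` is equal to `1` at `β`
(for unipotent `A` this means that `x ↦ A x + β` is minimal) -/
def Min {r : ℕ} (A : Matrix (Fin r) (Fin r) ℤ) (β : UnitAddTorus (Fin r)) : Prop :=
  (A - 1) ^ r = 0 ∧ ∀ X : Fin r → ℤ, X ≠ 0 → Matrix.vecMul X A = X → ∑ i, X i • β i ≠ 0

/-- every entry of the matrix valued function `Φ` on the torus has a modulus of continuity `ω`
with `ω(t) log(1/t) → 0` for `t → 0` -/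
def LMM {r : ℕ} {ι : Type} (Φ : UnitAddTorus (Fin r) → Matrix ι ι ℂ) : Prop :=
  ∀ i j, ∀ ε : ℝ, 0 < ε → ∃ t₀ : ℝ, 0 < t₀ ∧ t₀ < 1 ∧ ∀ t : ℝ, 0 < t → t ≤ t₀ →
    ∀ x y : UnitAddTorus (Fin r), dist x y ≤ t → ‖Φ x i j - Φ y i j‖ ≤ ε / (-Real.log t)

/-- the skew product `(x, g) ↦ (A x + β, Φ(x) g)` -/
noncomputable def SKG {r d : ℕ} (G : Subgroup (Matrix.unitaryGroup (Fin d) ℂ))
    (A : Matrix (Fin r) (Fin r) ℤ) (β : UnitAddTorus (Fin r)) (Φ : C(UnitAddTorus (Fin r), G)) :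
    UnitAddTorus (Fin r) × G → UnitAddTorus (Fin r) × G := fun y => (aff A β y.1, Φ y.1 * y.2)

/-- on the image of the functions on the torus the endomorphism `α` acts as the composition
with `x ↦ A x + β` -/
def Rot {B : Type u} [CStarAlgebra B] {r : ℕ} (A : Matrix (Fin r) (Fin r) ℤ)
    (β : UnitAddTorus (Fin r)) (α : B →⋆ₐ[ℂ] B) (π : C(UnitAddTorus (Fin r), ℂ) →⋆ₐ[ℂ] B) : Prop :=
  ∀ f : C(UnitAddTorus (Fin r), ℂ), α (π f) = π (f.comp (aff A β))

/-- `Φ` is a continuous function from the torus to the unitary group with the modulus of continuity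
`LMM` and `α (v i) = ∑ j, π (Φ i j) * v j` -/
def Fam {B : Type u} [CStarAlgebra B] {r : ℕ} (α : B →⋆ₐ[ℂ] B)
    (π : C(UnitAddTorus (Fin r), ℂ) →⋆ₐ[ℂ] B) {ι : Type} [Fintype ι] [DecidableEq ι]
    (Φ : C(UnitAddTorus (Fin r), Matrix ι ι ℂ)) (v : ι → B) : Prop :=
  (∀ x, Φ x ∈ Matrix.unitaryGroup ι ℂ) ∧ LMM (fun x => Φ x) ∧
  ∀ i, α (v i) = ∑ j, π ⟨fun x => Φ x i j, by fun_prop⟩ * v j

end Pool.Agent.Helper16.BZP
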