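import Pool.Agent.Helper16.BZ.Stmts
import Pool.Agent.Helper16.BZ.Pub

/-!
The last step: from the statements of the modules to the hand-in.
-/

open Finset Filter MeasureTheory Topology
open scoped ArithmeticFunction.Moebius

namespace Pool.Agent.Helper16.BZ

open Pool.Agent.Helper40.Mob (TwistedDisjoint)
open Pool.Agent.Helper16.BZP (aff)

universe u

theorem fin_aff {r : ℕ} (A : Matrix (Fin r) (Fin r) ℤ) (β : UnitAddTorus (Fin r)) :
    Aff A β (aff A β) := fun _ _ => rfl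

theorem fin_good (hTHB : ST_THB) (hAHO : ST_AHO) (hAMP : ST_AMP) (hAGR : ST_AGR) (hAEQ : ST_AEQ)
    (hPDC : ST_PDC) {r : ℕ} (A : Matrix (Fin r) (Fin r) ℤ) (β : UnitAddTorus (Fin r))
    (h : BZP.Min A β) : Good (aff A β) := by
  obtain ⟨S, hS⟩ := hAHO r A β h.1
  have hSA : (S : UnitAddTorus (Fin r) → UnitAddTorus (Fin r)) = aff A β := by
    funext x i
    exact hS x i
  rw [← hSA]
  intro d φ v u x hφ hL hv
  exact hTHB _ S (AZ.mm r) d φ v u x (hAMP r A β S hS) (hAEQ r A β S hS h)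
    (hAGR r A β S h.1 hS) (hPDC r A β S hS h) hφ hL hv

theorem fin_one (hXGR : ST_XGR2) (hgood : ∀ {r : ℕ} (A : Matrix (Fin r) (Fin r) ℤ)
    (β : UnitAddTorus (Fin r)), BZP.Min A β → Good (aff A β))
    (r d : ℕ) (G : Subgroup (Matrix.unitaryGroup (Fin d) ℂ)) (A : Matrix (Fin r) (Fin r) ℤ)
    (β : UnitAddTorus (Fin r)) (Φ : C(UnitAddTorus (Fin r), G))
    (hG : IsClosed (G : Set (Matrix.unitaryGroup (Fin d) ℂ))) (hm : BZP.Min A β)
    (hL : BZP.LMM (fun x => ((Φ x : Matrix.unitaryGroup (Fin d) ℂ) : Matrix (Fin d) (Fin d) ℂ)))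
    (F : C(UnitAddTorus (Fin r) × G, ℂ)) (y : UnitAddTorus (Fin r) × G) :
    Tendsto (fun N : ℕ => (∑ n ∈ Finset.Icc 1 N, (μ n : ℂ) * F ((BZP.SKG G A β Φ)^[n] y)) /
      (N : ℂ)) atTop (𝓝 0) :=
  hXGR _ d G (aff A β) Φ hG (hgood A β hm) hL F y

theorem fin_two (hCSP : ST_CSP2.{u}) (hgood : ∀ {r : ℕ} (A : Matrix (Fin r) (Fin r) ℤ)
    (β : UnitAddTorus (Fin r)), BZP.Min A β → Good (aff A β))
    (B : Type u) [CStarAlgebra B] (r : ℕ) (A : Matrix (Fin r) (Fin r) ℤ)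
    (β : UnitAddTorus (Fin r)) (α : B →⋆ₐ[ℂ] B) (π : C(UnitAddTorus (Fin r), ℂ) →⋆ₐ[ℂ] B)
    (hm : BZP.Min A β) (hr : BZP.Rot A β α π) (a : B)
    (ha : a ∈ closure ((Submodule.span ℂ {x : B | ∃ (d : ℕ)
      (Φ : C(UnitAddTorus (Fin r), Matrix (Fin d) (Fin d) ℂ)) (v : Fin d → B),
      BZP.Fam α π Φ v ∧ ∃ (f : C(UnitAddTorus (Fin r), ℂ)) (i : Fin d), π f * v i = x} :
      Submodule ℂ B) : Set B)) : TwistedDisjoint α a :=
  hCSP B _ (aff A β) α π (hgood A β hm) hr a ha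

end Pool.Agent.Helper16.BZ
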