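import Pool.Agent.Helper16.BZ.Defs
import Pool.Agent.Helper16.AZ.Stmts

/-!
Moebius disjointness of compact group extensions of minimal affine transformations of the torus:
statements of the modules (MP_7a8f48_an). Every module proves one `ST_X` from earlier ones,
which are hypotheses of its theorem.
-/

open Finset Filter MeasureTheory Topology
open scoped ComplexConjugate InnerProductSpace

namespace Pool.Agent.Helper16.BZ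

open Pool.Agent.Helper16.AZ (T E Op mm Eig PP ST_VDH ST_MSR ST_MRF ST_FPV)
open Pool.Agent.Helper16.MD (MS PB Am RW Rich)
open UnitAddTorus (mFourier)

/-! ## Block K: the criterion of Katai -/

/-- KT2: a block with large mean square. -/
def ST_KT2 : Prop := ∀ η : ℝ, 0 < η → η ≤ 1 → ∃ c : ℝ, 0 < c ∧
  ∀ (V : ℝ) (R : Finset ℕ) (f : ℕ → ℂ), 1 ≤ V → (∀ n, ‖f n‖ ≤ V) →
  (∀ p : ℕ, 1 ≤ p → ∀ᶠ M : ℕ in atTop, ∑ y ∈ Icc 1 M, ‖f (p * y)‖ ^ 2 ≤ 2 * (M : ℝ)) →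
  (∀ i ∈ R, 24 * V / η ≤ (2 : ℝ) ^ i) → 64 * V ^ 2 / η ^ 2 ≤ Am 1 R →
  (∃ᶠ N : ℕ in atTop, η * N ≤ ‖MS f N‖) →
  ∃ i ∈ R, ∃ Q ⊆ PB 1 i, ∃ᶠ M : ℕ in atTop,
    c * ((PB 1 i).card : ℝ) ^ 2 * M ≤ ∑ y ∈ Icc 1 M, ‖∑ p ∈ Q, f (p * y)‖ ^ 2

/-- GAM: van der Corput for all pairs of primes at the same time. -/
def ST_GAM2 : Prop := ∀ (X : Type) (S : X → X) (d : ℕ) (φ : X → Op d) (b : X → E d) (u : E d)
  (x : X) (V : ℝ) (Q : Finset ℕ) (H M : ℕ), (∀ x, φ x ∈ unitary (Op d)) → (∀ x, ‖b x‖ ≤ V) →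
  ‖u‖ ≤ 1 → 1 ≤ H →
  (H : ℝ) ^ 2 * (∑ y ∈ Icc 1 M, ‖∑ p ∈ Q, ff S φ b u x (p * y)‖ ^ 2) ^ 2 ≤
    (Q.card : ℝ) ^ 2 * (M * ∑ h ∈ range H, ∑ h' ∈ range H, ∑ y ∈ Icc 1 M,
      ‖∑ p ∈ Q, EE S φ b (p * h) (p * h') (S^[p * y] x)‖ ^ 2 +
      4 * (Q.card : ℝ) ^ 2 * V ^ 4 * ((H : ℝ) ^ 3 * M + (H : ℝ) ^ 4))

/-- ASY: the inner products vary slowly. -/
def ST_ASY2 : Prop := ∀ (X : Type) [MetricSpace X] [CompactSpace X] (S : X → X) (d : ℕ)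
  (φ : X → Op d) (c : X → E d) (V ε δ : ℝ) (H : ℕ), Continuous S → GR S → UC φ → LM φ →
  Continuous c → (∀ x, ‖c x‖ ≤ V) → 0 < ε → 0 < δ → ∃ I₀ : ℕ, ∀ i : ℕ, I₀ ≤ i →
  ∀ p ∈ PB 1 i, ∀ h < H, ∀ h' < H, ∀ x y : X, dist x y ≤ Real.exp (-ε * 2 ^ i) →
    ‖EE S φ c (p * h) (p * h') x - EE S φ c (p * h) (p * h') y‖ ≤ δ

/-! ## Block W: the unitary operator -/

/-- WOP: the operator. -/
def ST_WOP2 : Prop := ∀ (X : Type) [MetricSpace X] [CompactSpace X] [MeasurableSpace X]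
  [BorelSpace X] (S : X ≃ₜ X) (m : Measure X) [IsProbabilityMeasure m] (d : ℕ) (φ : X → Op d),
  MeasurePreserving S m m → UC φ → ∃ W : Lp (E d) 2 m →L[ℂ] Lp (E d) 2 m,
    W ∈ unitary (Lp (E d) 2 m →L[ℂ] Lp (E d) 2 m) ∧ Act S m φ W

/-- WPW: the powers of the operator. -/
def ST_WPW2 : Prop := ∀ (X : Type) [MetricSpace X] [CompactSpace X] [MeasurableSpace X]
  [BorelSpace X] (S : X ≃ₜ X) (m : Measure X) [IsProbabilityMeasure m] (d : ℕ) (φ : X → Op d)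
  (W : Lp (E d) 2 m →L[ℂ] Lp (E d) 2 m) (c : X → E d) (f : Lp (E d) 2 m),
  MeasurePreserving S m m → UC φ → Act S m φ W → Continuous c →
  (∀ᵐ x ∂m, (f : X → E d) x = c x) →
  (∀ k : ℕ, ∀ᵐ x ∂m, ((W ^ k) f : X → E d) x = Wk S φ k c x) ∧
  ∀ k k' : ℕ, inner ℂ ((W ^ k) f) ((W ^ k') f) = ∫ x, EE S φ c k k' x ∂m

/-- DEE: approximation by eigenvectors. -/
def ST_DEE2 : Prop := ∀ (X : Type) [MetricSpace X] [CompactSpace X] [MeasurableSpace X]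
  [BorelSpace X] (m : Measure X) [IsProbabilityMeasure m] (d : ℕ)
  (W : Lp (E d) 2 m →L[ℂ] Lp (E d) 2 m) (f : Lp (E d) 2 m) (ε : ℝ),
  W ∈ unitary (Lp (E d) 2 m →L[ℂ] Lp (E d) 2 m) → f ∈ PP W → 0 < ε →
  ∃ (K : ℕ) (z : ℕ → ℂ) (g : ℕ → X → E d) (g' : ℕ → Lp (E d) 2 m), (∀ k, ‖z k‖ = 1) ∧
  (∀ k, Continuous (g k)) ∧ (∀ k, ∀ᵐ x ∂m, (g' k : X → E d) x = g k x) ∧
  ∀ h : ℕ, ‖(W ^ h) f - ∑ k ∈ range K, (z k ^ h) • g' k‖ ≤ ε ∧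
    ‖(W ^ h) (∑ k ∈ range K, g' k) - ∑ k ∈ range K, (z k ^ h) • g' k‖ ≤ ε

/-! ## Block S: exponential sums over the primes of a block -/

/-- PPB: pairs of primes. -/
def ST_PPB : Prop := ∃ C : ℝ, 0 < C ∧ ∀ i m : ℕ, 1 ≤ i → 1 ≤ m →
  (((PB 1 i).filter fun p => p + m ∈ PB 1 i).card : ℝ) ≤
    C * 2 ^ i / (i : ℝ) ^ 2 * ∑ d ∈ m.divisors, 1 / (d : ℝ)

/-- GSQ: a mean square. -/
def ST_GSQ : Prop := ∃ C : ℝ, 0 < C ∧ ∀ N : ℕ,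
  ∑ m ∈ Icc 1 N, (∑ d ∈ m.divisors, 1 / (d : ℝ)) ^ 2 ≤ C * N

/-- VIN: many close returns. -/
def ST_VIN : Prop := ∀ (γ a : ℝ) (N : ℕ) (z : ℂ), 0 < γ → γ ≤ 1 → 1 ≤ N → ‖z‖ = 1 → 0 ≤ a →
  a ≤ γ / 100 → (∃ B ⊆ Icc 1 N, (∀ m ∈ B, ‖z ^ m - 1‖ ≤ a) ∧ γ * N ≤ (B.card : ℝ)) →
  ∃ q : ℕ, 1 ≤ q ∧ (q : ℝ) ≤ 2 / γ + 1 ∧ ‖z ^ q - 1‖ ≤ 100 / (γ ^ 2 * N)

/-- PES: large exponential sums over the primes. -/
def ST_PES : Prop := ∀ κ : ℝ, 0 < κ → ∃ (H q₀ I₀ : ℕ) (C : ℝ), 1 ≤ H ∧ 1 ≤ q₀ ∧ 0 < C ∧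
  ∀ (i : ℕ) (z : ℂ), I₀ ≤ i → Rich 1 i → ‖z‖ = 1 →
  κ * (PB 1 i).card * (H : ℝ) ^ 2 ≤ ∑ p ∈ PB 1 i, ‖∑ h ∈ range H, z ^ (p * h)‖ ^ 2 →
  ∃ q : ℕ, 1 ≤ q ∧ q ≤ q₀ ∧ ‖z ^ q - 1‖ ≤ C / 2 ^ i

/-- ATA: a measure with an atom. -/
def ST_ATA2 : Prop := ∀ κ : ℝ, 0 < κ → ∃ (H : ℕ) (κ' : ℝ), 1 ≤ H ∧ 0 < κ' ∧
  ∀ (ν : Measure ℂ) [IsFiniteMeasure ν], (ν Set.univ).toReal ≤ 4 → (∀ᵐ z ∂ν, ‖z‖ = 1) →
  (∃ᶠ i : ℕ in atTop, Rich 1 i ∧ κ * (PB 1 i).card * (H : ℝ) ^ 2 <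
    ∑ p ∈ PB 1 i, ∫ z : ℂ × ℂ,
      ‖∑ h ∈ range H, (z.1 * conj z.2) ^ (p * h)‖ ^ 2 ∂(ν.prod ν)) →
  ∃ z₀ : ℂ, ‖z₀‖ = 1 ∧ κ' ≤ (ν {z₀}).toReal

/-- ATM: large correlations come from an eigenvector. -/
def ST_ATM2 : Prop := ∀ κ : ℝ, 0 < κ → ∃ (H : ℕ) (κ' : ℝ), 1 ≤ H ∧ 0 < κ' ∧
  ∀ (V : Type) [NormedAddCommGroup V] [InnerProductSpace ℂ V] [CompleteSpace V]
  (U : V →L[ℂ] V) (ξ : V), U ∈ unitary (V →L[ℂ] V) → ‖ξ‖ ≤ 2 →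
  (∃ᶠ i : ℕ in atTop, Rich 1 i ∧ κ * (PB 1 i).card * (H : ℝ) ^ 2 <
    ∑ p ∈ PB 1 i, ∑ h ∈ range H, ∑ h' ∈ range H,
      ‖(inner ℂ ((U ^ (p * h)) ξ) ((U ^ (p * h')) ξ) : ℂ)‖ ^ 2) →
  ∃ η : V, ‖η‖ ≤ 2 ∧ Eig U η ∧ κ' ≤ ‖(inner ℂ η ξ : ℂ)‖

/-- DEC: the decomposition. -/
def ST_DEC2 : Prop := ∀ (X : Type) [MetricSpace X] [CompactSpace X] [MeasurableSpace X]
  [BorelSpace X] (S : X ≃ₜ X) (m : Measure X) [IsProbabilityMeasure m] (d : ℕ) (φ : X → Op d)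
  (v : X → E d) (ε κ : ℝ), MeasurePreserving S m m → UC φ → Continuous v →
  (∀ x, ‖v x‖ ≤ 1) → 0 < ε → 0 < κ →
  ∃ b c : X → E d, Continuous b ∧ Continuous c ∧ (∀ x, b x + c x = v x) ∧
  ∫ x, ‖c x‖ ^ 2 ∂m ≤ 3 / 2 ∧
  (∃ (K : ℕ) (z : ℕ → ℂ) (g : ℕ → X → E d), (∀ k, ‖z k‖ = 1 ∧ Continuous (g k)) ∧
    ∀ h : ℕ, ∫ x, ‖Wk S φ h b x - ∑ k ∈ range K, (z k ^ h) • g k x‖ ^ 2 ∂m ≤ ε ^ 2) ∧
  ∃ H : ℕ, 1 ≤ H ∧ ∀ᶠ i : ℕ in atTop, Rich 1 i →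
    ∑ p ∈ PB 1 i, ∑ h ∈ range H, ∑ h' ∈ range H,
      ‖∫ x, EE S φ c (p * h) (p * h') x ∂m‖ ^ 2 ≤ κ * (PB 1 i).card * (H : ℝ) ^ 2

/-! ## Block P: the theorem for a dynamical system -/

/-- PTB: the structured part. -/
def ST_PTB2 : Prop := ∀ (X : Type) [MetricSpace X] [CompactSpace X] [MeasurableSpace X]
  [BorelSpace X] (S : X ≃ₜ X) (m : Measure X) [IsProbabilityMeasure m] (d : ℕ) (φ : X → Op d)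
  (b : X → E d) (u : E d) (x : X) (ε : ℝ) (K : ℕ) (z : ℕ → ℂ) (g : ℕ → X → E d),
  EQ S m → UC φ → Continuous b → ‖u‖ ≤ 1 → 0 ≤ ε → (∀ k, ‖z k‖ = 1 ∧ Continuous (g k)) →
  (∀ h : ℕ, ∫ x, ‖Wk S φ h b x - ∑ k ∈ range K, (z k ^ h) • g k x‖ ^ 2 ∂m ≤ ε ^ 2) →
  ∀ δ : ℝ, 0 < δ → ∀ᶠ N : ℕ in atTop, ‖MS (ff S φ b u x) N‖ ≤ (ε + δ) * N

/-- PTC: the random part. -/
def ST_PTC2 : Prop := ∀ η : ℝ, 0 < η → η ≤ 1 → ∃ κ : ℝ, 0 < κ ∧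
  ∀ (X : Type) [MetricSpace X] [CompactSpace X] [MeasurableSpace X]
  [BorelSpace X] (S : X ≃ₜ X) (m : Measure X) [IsProbabilityMeasure m] (d : ℕ) (φ : X → Op d)
  (c : X → E d) (u : E d) (x : X) (H : ℕ), EQ S m → GR S → PD S m → UC φ → LM φ →
  Continuous c → ∫ x, ‖c x‖ ^ 2 ∂m ≤ 3 / 2 → ‖u‖ ≤ 1 → 1 ≤ H →
  (∀ᶠ i : ℕ in atTop, Rich 1 i → ∑ p ∈ PB 1 i, ∑ h ∈ range H, ∑ h' ∈ range H,
    ‖∫ x, EE S φ c (p * h) (p * h') x ∂m‖ ^ 2 ≤ κ * (PB 1 i).card * (H : ℝ) ^ 2) →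
  ∀ᶠ N : ℕ in atTop, ‖MS (ff S φ c u x) N‖ ≤ η * N

/-- THB: the theorem. -/
def ST_THB : Prop := ∀ (X : Type) [MetricSpace X] [CompactSpace X] [MeasurableSpace X]
  [BorelSpace X] (S : X ≃ₜ X) (m : Measure X) [IsProbabilityMeasure m] (d : ℕ) (φ : X → Op d)
  (v : X → E d) (u : E d) (x : X), MeasurePreserving S m m → EQ S m → GR S → PD S m → UC φ →
  LM φ → Continuous v → Tendsto (fun N : ℕ => MS (ff S φ v u x) N / (N : ℂ)) atTop (𝓝 0)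

/-! ## Block T: affine maps of the torus -/

/-- AHO: the affine map is a homeomorphism which preserves the measure, with polynomial growth. -/
def ST_AHO : Prop := ∀ (r : ℕ) (A : Matrix (Fin r) (Fin r) ℤ) (β : T r), (A - 1) ^ r = 0 →
  ∃ S : T r ≃ₜ T r, Aff A β S

/-- AMP: the affine map preserves the measure. -/
def ST_AMP : Prop := ∀ (r : ℕ) (A : Matrix (Fin r) (Fin r) ℤ) (β : T r) (S : T r ≃ₜ T r),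
  Aff A β S → MeasurePreserving S (mm r) (mm r)

/-- AGR: polynomial growth. -/
def ST_AGR : Prop := ∀ (r : ℕ) (A : Matrix (Fin r) (Fin r) ℤ) (β : T r) (S : T r → T r),
  (A - 1) ^ r = 0 → Aff A β S → GR S

/-- PO: orthogonality. -/
def ST_PO : Prop := ∀ (r : ℕ) (A : Matrix (Fin r) (Fin r) ℤ) (β : T r) (S : T r → T r),
  Aff A β S → Min A β → ∀ (k : ℕ) (P P' : ℕ) (X X' : Fin r → ℤ) (x : T r), 1 ≤ P → 1 ≤ P' →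
  Matrix.vecMul X ((A - 1) ^ (k + 1)) = 0 → Matrix.vecMul X' ((A - 1) ^ (k + 1)) = 0 →
  (P : ℤ) ^ (k + 1) • Matrix.vecMul X ((A - 1) ^ k) ≠
    (P' : ℤ) ^ (k + 1) • Matrix.vecMul X' ((A - 1) ^ k) →
  Tendsto (fun M : ℕ => (∑ y ∈ Icc 1 M, mFourier X (S^[P * y] x) *
    conj (mFourier X' (S^[P' * y] x))) / (M : ℂ)) atTop (𝓝 0)

/-- AEQ: equidistribution. -/
def ST_AEQ : Prop := ∀ (r : ℕ) (A : Matrix (Fin r) (Fin r) ℤ) (β : T r) (S : T r → T r),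
  Aff A β S → Min A β → EQ S (mm r)

/-- PDT: trigonometric polynomials. -/
def ST_PDT : Prop := ∀ (r : ℕ) (A : Matrix (Fin r) (Fin r) ℤ) (β : T r) (S : T r → T r)
  (x : T r) (Q : Finset ℕ) (F : Finset (Fin r → ℤ)) (a : ℕ → (Fin r → ℤ) → ℂ) (L n₀ : ℕ)
  (τ : ℝ), Aff A β S → Min A β → (∀ p ∈ Q, 1 ≤ p) → 0 ∈ F →
  (∀ p ∈ Q, ∑ X ∈ F, ‖a p X‖ ^ 2 ≤ 2) →
  (∀ p ∈ Q, ∀ F' ⊆ F, (∀ X ∈ F', ∃ j, (L : ℤ) < |X j|) → ∑ X ∈ F', ‖a p X‖ ^ 2 ≤ τ) →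
  (∀ k < r, ∀ Z : Fin r → ℤ, Z ≠ 0 → ∀ S' ⊆ Q, (∀ p ∈ S', ∃ Y : Fin r → ℤ,
    (∀ j, |Y j| ≤ (L : ℤ)) ∧ (p : ℤ) ^ (k + 1) • Matrix.vecMul Y ((A - 1) ^ k) = Z) →
    S'.card ≤ n₀) → ∀ ε : ℝ, 0 < ε → ∀ᶠ M : ℕ in atTop,
  ∑ y ∈ Icc 1 M, ‖∑ p ∈ Q, ∑ X ∈ F, a p X * mFourier X (S^[p * y] x)‖ ^ 2 ≤
    (‖∑ p ∈ Q, a p 0‖ ^ 2 + 4 * n₀ * Q.card + 2 * τ * (Q.card : ℝ) ^ 2 + ε) * M

/-- CNT: primes whose powers divide a vector. -/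
def ST_CNT2 : Prop := ∀ (r : ℕ) (A : Matrix (Fin r) (Fin r) ℤ), ∃ C : ℕ, ∀ (i m k : ℕ)
  (Z : Fin r → ℤ), Z ≠ 0 → k < r → ∀ S' ⊆ PB 1 i, (∀ p ∈ S', ∃ Y : Fin r → ℤ,
    (∀ j, |Y j| ≤ ((2 ^ m : ℕ) : ℤ)) ∧ (p : ℤ) ^ (k + 1) • Matrix.vecMul Y ((A - 1) ^ k) = Z) →
  i * S'.card ≤ (i + 1) * (r + 1) + m + C

/-- PDC: the affine map has the property `PD`. -/
def ST_PDC : Prop := ∀ (r : ℕ) (A : Matrix (Fin r) (Fin r) ℤ) (β : T r) (S : T r → T r),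
  Aff A β S → Min A β → PD S (mm r)

/-! ## Block C: C*-algebras -/

universe u

open Pool.Agent.Helper40.Mob (IsState TwistedDisjoint)

/-- the modulus of continuity of the entries is `o(1 / log (1 / t))` -/
def LMM {X : Type} [MetricSpace X] {ι : Type} (Φ : X → Matrix ι ι ℂ) : Prop :=
  ∀ i j, ∀ ε : ℝ, 0 < ε → ∃ t₀ : ℝ, 0 < t₀ ∧ t₀ < 1 ∧ ∀ t : ℝ, 0 < t → t ≤ t₀ →
    ∀ x y : X, dist x y ≤ t → ‖Φ x i j - Φ y i j‖ ≤ ε / (-Real.log t)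

/-- the elements `v i` of the algebra are transformed by the cocycle `Φ` -/
def Fam {A : Type u} [CStarAlgebra A] {X : Type} [MetricSpace X] [CompactSpace X]
    (α : A →⋆ₐ[ℂ] A) (π : C(X, ℂ) →⋆ₐ[ℂ] A)
    {ι : Type} [Fintype ι] [DecidableEq ι] (Φ : C(X, Matrix ι ι ℂ)) (v : ι → A) : Prop :=
  (∀ x, Φ x ∈ Matrix.unitaryGroup ι ℂ) ∧ LMM (fun x => Φ x) ∧
  ∀ i, α (v i) = ∑ j, π ⟨fun x => Φ x i j, by fun_prop⟩ * v j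

/-- the action on the functions on `X` is the composition with `S` -/
def Rot {A : Type u} [CStarAlgebra A] {X : Type} [MetricSpace X] [CompactSpace X] (S : C(X, X))
    (α : A →⋆ₐ[ℂ] A) (π : C(X, ℂ) →⋆ₐ[ℂ] A) : Prop :=
  ∀ f : C(X, ℂ), α (π f) = π (f.comp S)

/-- RMF: bounded pointwise convergence. -/
def ST_RMF2 : Prop := ∀ (A : Type u) [CStarAlgebra A] (X : Type) [MetricSpace X] [CompactSpace X]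
  (π : C(X, ℂ) →⋆ₐ[ℂ] A) (ρ : A →L[ℂ] ℂ) (a : A) (F : ℕ → C(X, ℂ)) (B : ℝ), IsState ρ →
  (∀ n x, ‖F n x‖ ≤ B) → (∀ x, Tendsto (fun n => F n x) atTop (𝓝 0)) →
  Tendsto (fun n => ρ (π (F n) * a)) atTop (𝓝 0)

/-- CIT: the iterates of a family. -/
def ST_CIT2 : Prop := ∀ (A : Type u) [CStarAlgebra A] (X : Type) [MetricSpace X] [CompactSpace X]
  (d : ℕ) (S : C(X, X)) (α : A →⋆ₐ[ℂ] A) (π : C(X, ℂ) →⋆ₐ[ℂ] A)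
  (Φ : C(X, Matrix (Fin d) (Fin d) ℂ)) (v : Fin d → A),
  Rot S α π → Fam α π Φ v → ∀ (n : ℕ) (i : Fin d) (f : C(X, ℂ)), ∃ F : Fin d → C(X, ℂ),
  (∀ j x, F j x = f (S^[n] x) * inner ℂ (EuclideanSpace.single i (1 : ℂ))
    (co S (fun x => Matrix.toEuclideanCLM (𝕜 := ℂ) (Φ x)) n x
      (EuclideanSpace.single j (1 : ℂ)))) ∧ α^[n] (π f * v i) = ∑ j, π (F j) * v j

/-- the theorem `THB` holds for the system -/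
def Good {X : Type} [MetricSpace X] (S : X → X) : Prop := ∀ (d : ℕ) (φ : X → Op d)
  (v : X → E d) (u : E d) (x : X), UC φ → LM φ → Continuous v →
  Tendsto (fun N : ℕ => MS (ff S φ v u x) N / (N : ℂ)) atTop (𝓝 0)

/-- CTH: the theorem for one family. -/
def ST_CTH2 : Prop := ∀ (A : Type u) [CStarAlgebra A] (X : Type) [MetricSpace X] [CompactSpace X]
  (d : ℕ) (S : C(X, X)) (α : A →⋆ₐ[ℂ] A) (π : C(X, ℂ) →⋆ₐ[ℂ] A)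
  (Φ : C(X, Matrix (Fin d) (Fin d) ℂ)) (v : Fin d → A), Good S →
  Rot S α π → Fam α π Φ v → ∀ (f : C(X, ℂ)) i, TwistedDisjoint α (π f * v i)

/-- CSP: the theorem for the closed linear span. -/
def ST_CSP2 : Prop := ∀ (A : Type u) [CStarAlgebra A] (X : Type) [MetricSpace X] [CompactSpace X]
  (S : C(X, X)) (α : A →⋆ₐ[ℂ] A) (π : C(X, ℂ) →⋆ₐ[ℂ] A), Good S → Rot S α π → ∀ a : A,
  a ∈ closure ((Submodule.span ℂ {x : A | ∃ (d : ℕ) (Φ : C(X, Matrix (Fin d) (Fin d) ℂ))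
    (v : Fin d → A), Fam α π Φ v ∧ ∃ (f : C(X, ℂ)) (i : Fin d), π f * v i = x} :
    Submodule ℂ A) : Set A) → TwistedDisjoint α a

/-! ## Block X: skew products -/

/-- the phase space -/
abbrev XX (X : Type) (d : ℕ) : Type := X × Matrix.unitaryGroup (Fin d) ℂ

/-- the skew product -/
noncomputable def SK {X : Type} [MetricSpace X] {d : ℕ} (S : X → X)
    (Φ : C(X, Matrix.unitaryGroup (Fin d) ℂ)) : XX X d → XX X d := fun y => (S y.1, Φ y.1 * y.2)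

/-- XPR: products and conjugates of families. -/
def ST_XPR2 : Prop := ∀ (A : Type) [CommCStarAlgebra A] (X : Type) [MetricSpace X]
  [CompactSpace X] (α : A →⋆ₐ[ℂ] A) (π : C(X, ℂ) →⋆ₐ[ℂ] A) (d d' : ℕ)
  (Φ : C(X, Matrix (Fin d) (Fin d) ℂ)) (Φ' : C(X, Matrix (Fin d') (Fin d') ℂ))
  (v : Fin d → A) (v' : Fin d' → A), Fam α π Φ v → Fam α π Φ' v' →
  (∀ i i', ∃ (e : ℕ) (Ψ : C(X, Matrix (Fin e) (Fin e) ℂ)) (w : Fin e → A),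
    Fam α π Ψ w ∧ ∃ k, w k = v i * v' i') ∧
  (∀ i, ∃ (e : ℕ) (Ψ : C(X, Matrix (Fin e) (Fin e) ℂ)) (w : Fin e → A),
    Fam α π Ψ w ∧ ∃ k, w k = star (v i))

/-- XSW: the families span a dense subspace. -/
def ST_XSW2 : Prop := ∀ (X : Type) [MetricSpace X] [CompactSpace X] (d : ℕ) (S : C(X, X))
  (Φ : C(X, Matrix.unitaryGroup (Fin d) ℂ)),
  LMM (fun x => (Φ x : Matrix (Fin d) (Fin d) ℂ)) →
  ∃ (α : C(XX X d, ℂ) →⋆ₐ[ℂ] C(XX X d, ℂ)) (π : C(X, ℂ) →⋆ₐ[ℂ] C(XX X d, ℂ)),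
  (∀ (F : C(XX X d, ℂ)) (y : XX X d), α F y = F (SK S Φ y)) ∧ Rot S α π ∧
  closure ((Submodule.span ℂ {x : C(XX X d, ℂ) | ∃ (e : ℕ)
    (Ψ : C(X, Matrix (Fin e) (Fin e) ℂ)) (v : Fin e → C(XX X d, ℂ)),
    Fam α π Ψ v ∧ ∃ (f : C(X, ℂ)) (i : Fin e), π f * v i = x} :
    Submodule ℂ C(XX X d, ℂ)) : Set C(XX X d, ℂ)) = Set.univ

/-- XTH: the theorem for skew products. -/
def ST_XTH2 : Prop := ∀ (X : Type) [MetricSpace X] [CompactSpace X] (d : ℕ) (S : C(X, X))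
  (Φ : C(X, Matrix.unitaryGroup (Fin d) ℂ)), Good S →
  LMM (fun x => (Φ x : Matrix (Fin d) (Fin d) ℂ)) → ∀ (F : C(XX X d, ℂ)) (y : XX X d),
  Tendsto (fun N : ℕ => MS (fun n => F ((SK S Φ)^[n] y)) N / (N : ℂ)) atTop (𝓝 0)

/-- the skew product with values in a subgroup -/
noncomputable def SKG {X : Type} [MetricSpace X] {d : ℕ}
    (G : Subgroup (Matrix.unitaryGroup (Fin d) ℂ)) (S : X → X)
    (Φ : C(X, G)) : X × G → X × G := fun y => (S y.1, Φ y.1 * y.2)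

/-- XGR: the theorem for skew products with values in a closed subgroup. -/
def ST_XGR2 : Prop := ∀ (X : Type) [MetricSpace X] [CompactSpace X] (d : ℕ)
  (G : Subgroup (Matrix.unitaryGroup (Fin d) ℂ)) (S : C(X, X)) (Φ : C(X, G)),
  IsClosed (G : Set (Matrix.unitaryGroup (Fin d) ℂ)) → Good S →
  LMM (fun x => ((Φ x : Matrix.unitaryGroup (Fin d) ℂ) : Matrix (Fin d) (Fin d) ℂ)) →
  ∀ (F : C(X × G, ℂ)) (y : X × G),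
  Tendsto (fun N : ℕ => MS (fun n => F ((SKG G S Φ)^[n] y)) N / (N : ℂ)) atTop (𝓝 0)

end Pool.Agent.Helper16.BZ
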