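import Pool.Agent.Helper16.BZ.Stmts

/-!
Module AHO: unipotent affine maps of the torus are homeomorphisms.
-/

open Finset Filter MeasureTheory Topology

namespace Pool.Agent.Helper16.BZ

open Pool.Agent.Helper16.AZ (T E Op mm Eig PP)

/-- the linear map of an integer matrix on the torus -/
def xaho_lin {r : ℕ} (A : Matrix (Fin r) (Fin r) ℤ) (x : T r) : T r := fun i => ∑ j, A i j • x j

theorem xaho_cont {r : ℕ} (A : Matrix (Fin r) (Fin r) ℤ) : Continuous (xaho_lin A) := by
  unfold xaho_lin
  fun_prop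

theorem xaho_mul {r : ℕ} (A B : Matrix (Fin r) (Fin r) ℤ) (x : T r) :
    xaho_lin A (xaho_lin B x) = xaho_lin (A * B) x := by
  funext i
  simp only [xaho_lin, Matrix.mul_apply, Finset.smul_sum, Finset.sum_smul, smul_smul]
  exact Finset.sum_comm

theorem xaho_one {r : ℕ} (x : T r) : xaho_lin (1 : Matrix (Fin r) (Fin r) ℤ) x = x := by
  funext i
  simp only [xaho_lin, Matrix.one_apply]
  rw [Finset.sum_eq_single i]
  · simp
  · intro j _ hj
    simp [Ne.symm hj]
  · simp

theorem xaho_inv {r : ℕ} (A : Matrix (Fin r) (Fin r) ℤ) (hA : (A - 1) ^ r = 0) :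
    ∃ B : Matrix (Fin r) (Fin r) ℤ, A * B = 1 ∧ B * A = 1 := by
  have hn : IsNilpotent (A - 1) := ⟨r, hA⟩
  have hu : IsUnit A := by
    have := hn.isUnit_add_one
    rwa [sub_add_cancel] at this
  obtain ⟨U, hU⟩ := hu
  exact ⟨(U⁻¹ : (Matrix (Fin r) (Fin r) ℤ)ˣ), by rw [← hU]; exact U.mul_inv, by rw [← hU]; exact U.inv_mul⟩

theorem xst_AHO : ST_AHO := by
  intro r A β hA
  obtain ⟨B, hAB, hBA⟩ := xaho_inv A hA
  refine ⟨{ toFun := fun x => xaho_lin A x + β
            invFun := fun x => xaho_lin B (x - β)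
            left_inv := fun x => ?_
            right_inv := fun x => ?_
            continuous_toFun := (xaho_cont A).add continuous_const
            continuous_invFun := (xaho_cont B).comp (continuous_id.sub continuous_const) }, ?_⟩
  · show xaho_lin B (xaho_lin A x + β - β) = x
    rw [add_sub_cancel_right, xaho_mul, hBA, xaho_one]
  · show xaho_lin A (xaho_lin B (x - β)) + β = x
    rw [xaho_mul, hAB, xaho_one, sub_add_cancel]
  · intro x i
    rfl

end Pool.Agent.Helper16.BZ
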