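import Pool.Agent.Helper16.BZ.Stmts

/-!
Module ATA2: a measure with an atom.
-/

open Finset Filter MeasureTheory Topology
open scoped ComplexConjugate InnerProductSpace ENNReal

namespace Pool.Agent.Helper16.BZ

open Pool.Agent.Helper16.MD (MS PB Am RW Rich)

/-- the neighbourhoods -/
def xata_D (q₀ : ℕ) (C : ℝ) (i : ℕ) : Set (ℂ × ℂ) :=
  ⋃ q ∈ Icc 1 q₀, {z | ‖(z.1 * conj z.2) ^ q - 1‖ ≤ C / 2 ^ i}

/-- the limit set -/
def xata_R (q : ℕ) : Set (ℂ × ℂ) := {z | (z.1 * conj z.2) ^ q = 1}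

theorem xata_cont : Continuous (fun z : ℂ × ℂ => z.1 * conj z.2) :=
  continuous_fst.mul (Complex.continuous_conj.comp continuous_snd)

theorem xata_meas (q₀ : ℕ) (C : ℝ) (i : ℕ) : MeasurableSet (xata_D q₀ C i) := by
  refine Finset.measurableSet_biUnion _ fun q _ => ?_
  apply IsClosed.measurableSet
  exact isClosed_le (((xata_cont.pow q).sub continuous_const).norm) continuous_const

theorem xata_measR (q : ℕ) : MeasurableSet (xata_R q) := by
  apply IsClosed.measurableSet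
  exact isClosed_eq (xata_cont.pow q) continuous_const

theorem xata_norm {z : ℂ × ℂ} (h1 : ‖z.1‖ = 1) (h2 : ‖z.2‖ = 1) : ‖z.1 * conj z.2‖ = 1 := by
  rw [norm_mul, h1, one_mul, RCLike.norm_conj, h2]

theorem xata_sum_le {w : ℂ} (hw : ‖w‖ = 1) (H p : ℕ) :
    ‖∑ h ∈ range H, w ^ (p * h)‖ ^ 2 ≤ (H : ℝ) ^ 2 := by
  have h1 : ‖∑ h ∈ range H, w ^ (p * h)‖ ≤ H := by
    calc _ ≤ ∑ h ∈ range H, ‖w ^ (p * h)‖ := norm_sum_le _ _
      _ = ∑ h ∈ range H, (1 : ℝ) := by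
        refine Finset.sum_congr rfl fun h _ => ?_
        rw [norm_pow, hw, one_pow]
      _ = H := by simp
  exact pow_le_pow_left₀ (norm_nonneg _) h1 2

theorem xata_ae (ν : Measure ℂ) [IsFiniteMeasure ν] (hν : ∀ᵐ z ∂ν, ‖z‖ = 1) :
    ∀ᵐ z ∂(ν.prod ν), ‖z.1‖ = 1 ∧ ‖z.2‖ = 1 := by
  have h1 := (Measure.quasiMeasurePreserving_fst (μ := ν) (ν := ν)).ae hν
  have h2 := (Measure.quasiMeasurePreserving_snd (μ := ν) (ν := ν)).ae hν
  filter_upwards [h1, h2] with z a b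
  exact ⟨a, b⟩

theorem xata_int (ν : Measure ℂ) [IsFiniteMeasure ν] (hν : ∀ᵐ z ∂ν, ‖z‖ = 1) (H p : ℕ) :
    Integrable (fun z : ℂ × ℂ => ‖∑ h ∈ range H, (z.1 * conj z.2) ^ (p * h)‖ ^ 2)
      (ν.prod ν) := by
  refine Integrable.of_bound ?_ ((H : ℝ) ^ 2) ?_
  · refine Continuous.aestronglyMeasurable ?_
    refine Continuous.pow (Continuous.norm ?_) 2
    exact continuous_finsetSum _ fun h _ => xata_cont.pow _
  · filter_upwards [xata_ae ν hν] with z hz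
    rw [Real.norm_of_nonneg (sq_nonneg _)]
    exact xata_sum_le (xata_norm hz.1 hz.2) H p

theorem xata_bound (κ : ℝ) (H q₀ : ℕ) (C : ℝ) (ν : Measure ℂ) [IsFiniteMeasure ν] (hκ : 0 < κ)
    (hm : (ν.prod ν).real Set.univ ≤ 16)
    (hν : ∀ᵐ z ∂ν, ‖z‖ = 1) (i : ℕ)
    (h1 : ∀ z : ℂ, ‖z‖ = 1 →
      κ / 32 * (PB 1 i).card * (H : ℝ) ^ 2 ≤ ∑ p ∈ PB 1 i, ‖∑ h ∈ range H, z ^ (p * h)‖ ^ 2 →
      ∃ q : ℕ, 1 ≤ q ∧ q ≤ q₀ ∧ ‖z ^ q - 1‖ ≤ C / 2 ^ i) :
    ∑ p ∈ PB 1 i, ∫ z : ℂ × ℂ,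
      ‖∑ h ∈ range H, (z.1 * conj z.2) ^ (p * h)‖ ^ 2 ∂(ν.prod ν) ≤
    κ / 2 * (PB 1 i).card * (H : ℝ) ^ 2 +
      (ν.prod ν).real (xata_D q₀ C i) * ((PB 1 i).card * (H : ℝ) ^ 2) := by
  rw [← integral_finset_sum _ fun p _ => xata_int ν hν _ p]
  have hc0 : 0 ≤ κ / 32 * (PB 1 i).card * (H : ℝ) ^ 2 := by positivity
  have e1 : ∀ᵐ z ∂(ν.prod ν), ∑ p ∈ PB 1 i,
      ‖∑ h ∈ range H, (z.1 * conj z.2) ^ (p * h)‖ ^ 2 ≤
      κ / 32 * (PB 1 i).card * (H : ℝ) ^ 2 +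
        (xata_D q₀ C i).indicator (fun _ => (PB 1 i).card * (H : ℝ) ^ 2) z := by
    filter_upwards [xata_ae ν hν] with z hz
    have hw := xata_norm hz.1 hz.2
    by_cases hzD : z ∈ xata_D q₀ C i
    · rw [Set.indicator_of_mem hzD]
      have h3 : ∑ p ∈ PB 1 i, ‖∑ h ∈ range H, (z.1 * conj z.2) ^ (p * h)‖ ^ 2 ≤
          (PB 1 i).card * (H : ℝ) ^ 2 := by
        rw [← nsmul_eq_mul]
        exact Finset.sum_le_card_nsmul _ _ _ fun p _ => xata_sum_le hw _ p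
      linarith
    · rw [Set.indicator_of_notMem hzD, add_zero]
      by_contra hcon
      rw [not_le] at hcon
      obtain ⟨q, hq1, hq2, hq3⟩ := h1 _ hw hcon.le
      refine hzD (Set.mem_biUnion (x := q) ?_ hq3)
      exact Finset.mem_coe.2 (Finset.mem_Icc.2 ⟨hq1, hq2⟩)
  have i1 : Integrable (fun z : ℂ × ℂ => ∑ p ∈ PB 1 i,
      ‖∑ h ∈ range H, (z.1 * conj z.2) ^ (p * h)‖ ^ 2) (ν.prod ν) :=
    integrable_finset_sum _ fun p _ => xata_int ν hν _ p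
  have i2 : Integrable ((xata_D q₀ C i).indicator
      (fun _ : ℂ × ℂ => (PB 1 i).card * (H : ℝ) ^ 2)) (ν.prod ν) :=
    (integrable_const _).indicator (xata_meas q₀ C i)
  refine (integral_mono_ae i1 ((integrable_const _).add i2) e1).trans ?_
  simp only [Pi.add_apply]
  rw [integral_add (integrable_const _) i2, integral_const,
    integral_indicator_const _ (xata_meas q₀ C i), smul_eq_mul, smul_eq_mul]
  have h4 : (ν.prod ν).real Set.univ * (κ / 32 * (PB 1 i).card * (H : ℝ) ^ 2) ≤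
      16 * (κ / 32 * (PB 1 i).card * (H : ℝ) ^ 2) :=
    mul_le_mul_of_nonneg_right hm hc0
  linarith

theorem xata_fib (ν : Measure ℂ) (c : ℝ≥0∞) (hc : ∀ x, ν {x} ≤ c) (q : ℕ) (hq : 1 ≤ q) (x : ℂ) :
    ν {w | (x * conj w) ^ q = 1} ≤ q * c := by
  have hsub : {w : ℂ | (x * conj w) ^ q = 1} ⊆
      ⋃ ζ ∈ (Polynomial.nthRoots q (1 : ℂ)).toFinset, {conj (ζ / x)} := by
    intro w hw
    have hw' : (x * conj w) ^ q = 1 := hw
    have hx : x ≠ 0 := by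
      rintro rfl
      rw [zero_mul, zero_pow (by omega)] at hw'
      exact zero_ne_one hw'
    refine Set.mem_biUnion (x := x * conj w) ?_ ?_
    · exact Finset.mem_coe.2 (Multiset.mem_toFinset.2 ((Polynomial.mem_nthRoots (by omega)).2 hw'))
    · rw [Set.mem_singleton_iff, mul_div_cancel_left₀ _ hx, Complex.conj_conj]
  refine (measure_mono hsub).trans ((measure_biUnion_finset_le _ _).trans ?_)
  refine (Finset.sum_le_card_nsmul _ _ c fun ζ _ => hc _).trans ?_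
  rw [nsmul_eq_mul]
  have h1 : (Polynomial.nthRoots q (1 : ℂ)).toFinset.card ≤ q :=
    (Multiset.toFinset_card_le _).trans (Polynomial.card_nthRoots q 1)
  gcongr

theorem xata_prod (ν : Measure ℂ) [IsFiniteMeasure ν] (c : ℝ≥0∞) (hc : ∀ x, ν {x} ≤ c) (q : ℕ)
    (hq : 1 ≤ q) : (ν.prod ν) (xata_R q) ≤ q * c * ν Set.univ := by
  rw [Measure.prod_apply (xata_measR q)]
  calc ∫⁻ x, ν (Prod.mk x ⁻¹' (xata_R q)) ∂ν ≤ ∫⁻ _, q * c ∂ν :=
        lintegral_mono fun x => xata_fib ν c hc q hq x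
    _ = q * c * ν Set.univ := by rw [lintegral_const]

theorem xata_inter {q₀ : ℕ} {C : ℝ} :
    (⋂ i, xata_D q₀ C i) ⊆ ⋃ q ∈ Icc 1 q₀, xata_R q := by
  intro z hz
  rw [Set.mem_iInter] at hz
  by_contra hcon
  have h0 : ∀ q ∈ Icc 1 q₀, (z.1 * conj z.2) ^ q ≠ 1 := by
    intro q hq h
    exact hcon (Set.mem_biUnion (x := q) (Finset.mem_coe.2 hq) h)
  have h1 : Tendsto (fun i : ℕ => C / 2 ^ i) atTop (𝓝 0) := by
    have h2 : Tendsto (fun i : ℕ => C * (1 / 2 : ℝ) ^ i) atTop (𝓝 (C * 0)) :=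
      (tendsto_pow_atTop_nhds_zero_of_lt_one (by norm_num) (by norm_num)).const_mul _
    rw [mul_zero] at h2
    refine h2.congr fun i => ?_
    rw [one_div, inv_pow]
    rfl
  have h3 : ∀ᶠ i : ℕ in atTop, ∀ q ∈ Icc 1 q₀, C / 2 ^ i < ‖(z.1 * conj z.2) ^ q - 1‖ := by
    rw [Filter.eventually_all_finset]
    intro q hq
    exact h1.eventually_lt_const (norm_pos_iff.2 (sub_ne_zero.2 (h0 q hq)))
  obtain ⟨i, hi⟩ := h3.exists
  have h4 := hz i
  simp only [xata_D, Set.mem_iUnion] at h4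
  obtain ⟨q, hq, h5⟩ := h4
  exact absurd (hi q hq) (not_lt.2 h5)

theorem xata_anti {q₀ : ℕ} {C : ℝ} (hC : 0 < C) : Antitone (xata_D q₀ C) := by
  intro i j hij
  refine Set.iUnion₂_mono fun q _ z hz => ?_
  refine le_trans (show ‖(z.1 * conj z.2) ^ q - 1‖ ≤ C / 2 ^ j from hz) ?_
  have h1 : (2 : ℝ) ^ i ≤ 2 ^ j := pow_le_pow_right₀ (by norm_num) hij
  exact div_le_div_of_nonneg_left hC.le (by positivity) h1

theorem xst_ATA2 (hPES : ST_PES) : ST_ATA2 := by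
  intro κ hκ
  obtain ⟨H, q₀, I₀, C, hH, hq₀, hC, hP⟩ := hPES (κ / 32) (by positivity)
  have hq0 : (1 : ℝ) ≤ q₀ := by exact_mod_cast hq₀
  refine ⟨H, κ / (16 * (q₀ : ℝ) ^ 2), hH, by positivity, ?_⟩
  intro ν _ hm hν hfr
  by_contra hcon
  push Not at hcon
  have hm4 : ν Set.univ ≤ 4 := by
    rw [← ENNReal.ofReal_toReal (measure_ne_top ν Set.univ)]
    refine (ENNReal.ofReal_le_ofReal hm).trans ?_
    simp
  have hpt : ∀ x, ν {x} ≤ ENNReal.ofReal (κ / (16 * (q₀ : ℝ) ^ 2)) := by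
    intro x
    by_cases hx : ‖x‖ = 1
    · rw [← ENNReal.ofReal_toReal (measure_ne_top ν {x})]
      exact ENNReal.ofReal_le_ofReal (hcon x hx).le
    · have h2 : ν {x} = 0 := by
        refine measure_mono_null ?_ (ae_iff.1 hν)
        intro y hy
        rw [Set.mem_singleton_iff] at hy
        rw [hy]
        exact hx
      rw [h2]
      exact zero_le
  have hprod1 : (ν.prod ν) Set.univ ≤ 16 := by
    rw [← Set.univ_prod_univ, Measure.prod_prod]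
    calc ν Set.univ * ν Set.univ ≤ 4 * 4 := mul_le_mul' hm4 hm4
      _ = 16 := by norm_num
  have hprodr : (ν.prod ν).real Set.univ ≤ 16 := by
    rw [Measure.real]
    have := ENNReal.toReal_mono (by norm_num) hprod1
    simpa using this
  have hlim : Tendsto (fun i => (ν.prod ν) (xata_D q₀ C i)) atTop
      (𝓝 ((ν.prod ν) (⋂ i, xata_D q₀ C i))) :=
    tendsto_measure_iInter_atTop (fun i => (xata_meas q₀ C i).nullMeasurableSet)
      (xata_anti hC) ⟨0, measure_ne_top _ _⟩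
  have hL : (ν.prod ν) (⋂ i, xata_D q₀ C i) ≤ ENNReal.ofReal (κ / 4) := by
    refine le_trans (measure_mono xata_inter) ?_
    refine (measure_biUnion_finset_le _ _).trans ?_
    have h1 : ∀ q ∈ Icc 1 q₀, (ν.prod ν) (xata_R q) ≤
        ENNReal.ofReal (q₀ * (κ / (16 * (q₀ : ℝ) ^ 2)) * 4) := by
      intro q hq
      obtain ⟨hq1, hq2⟩ := Finset.mem_Icc.1 hq
      refine (xata_prod ν _ hpt q hq1).trans ?_
      rw [ENNReal.ofReal_mul (by positivity), ENNReal.ofReal_mul (by positivity)]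
      refine mul_le_mul' (mul_le_mul' ?_ le_rfl) ?_
      · rw [ENNReal.ofReal_natCast]
        exact_mod_cast hq2
      · refine hm4.trans ?_
        simp
    refine (Finset.sum_le_card_nsmul _ _ _ h1).trans ?_
    rw [Nat.card_Icc, Nat.add_sub_cancel, nsmul_eq_mul, ← ENNReal.ofReal_natCast,
      ← ENNReal.ofReal_mul (by positivity)]
    refine ENNReal.ofReal_le_ofReal (le_of_eq ?_)
    field_simp
    norm_num
  have hL2 : (ν.prod ν) (⋂ i, xata_D q₀ C i) < ENNReal.ofReal (κ / 2) := by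
    refine lt_of_le_of_lt hL ?_
    rw [ENNReal.ofReal_lt_ofReal_iff (by positivity)]
    linarith
  have hev1 : ∀ᶠ i in atTop, (ν.prod ν) (xata_D q₀ C i) < ENNReal.ofReal (κ / 2) :=
    hlim.eventually_lt_const hL2
  obtain ⟨i, ⟨hR, hi⟩, hi1, hi2⟩ := (hfr.and_eventually (hev1.and (eventually_ge_atTop I₀))).exists
  have hb := xata_bound κ H q₀ C ν hκ hprodr hν i (fun z hz h => hP i z hi2 hR hz h)
  have hmi : (ν.prod ν).real (xata_D q₀ C i) ≤ κ / 2 := by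
    rw [Measure.real]
    exact ENNReal.toReal_le_of_le_ofReal (by positivity) hi1.le
  have hB0 : (0 : ℝ) ≤ (PB 1 i).card * (H : ℝ) ^ 2 := by positivity
  have h5 : (ν.prod ν).real (xata_D q₀ C i) * ((PB 1 i).card * (H : ℝ) ^ 2) ≤
      κ / 2 * ((PB 1 i).card * (H : ℝ) ^ 2) :=
    mul_le_mul_of_nonneg_right hmi hB0
  nlinarith

end Pool.Agent.Helper16.BZ
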