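import Pool.Agent.Helper16.BZ.Stmts

/-! # Approximation by eigenvectors -/

set_option autoImplicit false

namespace Pool.Agent.Helper16.BZ

open Finset Filter MeasureTheory Topology
open scoped ComplexConjugate InnerProductSpace ENNReal
open Pool.Agent.Helper16.AZ (T E Op mm Eig PP)
open Pool.Agent.Helper16.MD (MS PB Am RW Rich)

section

variable {X : Type} [MetricSpace X] [CompactSpace X] [MeasurableSpace X]
  [BorelSpace X] {m : Measure X} [IsProbabilityMeasure m] {d : ℕ}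

/-- density of continuous functions -/
theorem xdee_dense (w : Lp (E d) 2 m) (ε : ℝ) (hε : 0 < ε) :
    ∃ (c : X → E d) (f : Lp (E d) 2 m), Continuous c ∧ (∀ᵐ θ ∂m, (f : X → E d) θ = c θ) ∧
      ‖w - f‖ ≤ ε := by
  have hwm : MemLp (w : X → E d) 2 m := Lp.memLp w
  have hε2 : ENNReal.ofReal ε ≠ 0 := by
    rw [Ne, ENNReal.ofReal_eq_zero, not_le]
    exact hε
  obtain ⟨g, hg, hgm⟩ := hwm.exists_boundedContinuous_eLpNorm_sub_le (by norm_num) hε2
  refine ⟨g, hgm.toLp _, g.continuous, hgm.coeFn_toLp, ?_⟩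
  rw [Lp.norm_def]
  have h3 : eLpNorm ((w - hgm.toLp _ : Lp (E d) 2 m) : X → E d) 2 m
      = eLpNorm ((w : X → E d) - (g : X → E d)) 2 m := by
    refine eLpNorm_congr_ae ?_
    filter_upwards [Lp.coeFn_sub w (hgm.toLp _), hgm.coeFn_toLp] with θ h3 h5
    rw [h3, Pi.sub_apply, Pi.sub_apply, h5]
  rw [h3]
  exact ENNReal.toReal_le_of_le_ofReal hε.le hg

theorem xdee_mul (Y Z : Lp (E d) 2 m →L[ℂ] Lp (E d) 2 m) (f : Lp (E d) 2 m) :
    (Y * Z) f = Y (Z f) := rfl

/-- powers of a unitary preserve the norm -/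
theorem xdee_norm {W : Lp (E d) 2 m →L[ℂ] Lp (E d) 2 m}
    (hW : W ∈ unitary (Lp (E d) 2 m →L[ℂ] Lp (E d) 2 m)) (h : ℕ) (f : Lp (E d) 2 m) :
    ‖(W ^ h) f‖ = ‖f‖ :=
  ContinuousLinearMap.norm_map_of_mem_unitary (pow_mem hW h) f

theorem xdee_pow {W : Lp (E d) 2 m →L[ℂ] Lp (E d) 2 m} {e : Lp (E d) 2 m} {z : ℂ}
    (he : W e = z • e) (h : ℕ) : (W ^ h) e = z ^ h • e := by
  induction h with
  | zero => simp
  | succ h ih =>
    rw [pow_succ', xdee_mul, ih, map_smul, he, smul_smul, pow_succ]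

end

/-- Approximation by eigenvectors. -/
theorem xst_DEE2 : ST_DEE2 := by
  intro X _ _ _ _ m _ d W f ε hW hf hε
  -- a finite sum of eigenvectors
  obtain ⟨s, hs, hfs⟩ : ∃ s ∈ Submodule.span ℂ {η : Lp (E d) 2 m | Eig W η}, ‖f - s‖ ≤ ε / 2 := by
    have hf' : f ∈ closure ((Submodule.span ℂ {η : Lp (E d) 2 m | Eig W η} :
        Submodule ℂ (Lp (E d) 2 m)) : Set (Lp (E d) 2 m)) := hf
    obtain ⟨s, hs, hd⟩ := Metric.mem_closure_iff.1 hf' (ε / 2) (half_pos hε)
    exact ⟨s, hs, by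
      rw [dist_eq_norm] at hd
      exact hd.le⟩
  obtain ⟨K, c, η, hsum⟩ := Submodule.mem_span_set'.1 hs
  -- the eigenvalues
  have hz : ∀ i : Fin K, ∃ z : ℂ, ‖z‖ = 1 ∧
      W ((η i : Lp (E d) 2 m)) = z • (η i : Lp (E d) 2 m) :=
    fun i => (η i).2
  choose z0 hz0 hz1 using hz
  let z : ℕ → ℂ := fun k => if h : k < K then z0 ⟨k, h⟩ else 1
  let e : ℕ → Lp (E d) 2 m :=
    fun k => if h : k < K then c ⟨k, h⟩ • (η ⟨k, h⟩ : Lp (E d) 2 m) else 0
  have hzn : ∀ k, ‖z k‖ = 1 := by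
    intro k
    by_cases h : k < K
    · simp only [z, dif_pos h]
      exact hz0 _
    · simp only [z, dif_neg h, norm_one]
  have he : ∀ k, W (e k) = z k • e k := by
    intro k
    by_cases h : k < K
    · simp only [z, e, dif_pos h]
      rw [map_smul, hz1, smul_comm]
    · simp only [z, e, dif_neg h, map_zero, smul_zero]
  have hse : ∑ k ∈ range K, e k = s := by
    rw [Finset.sum_range, ← hsum]
    refine Finset.sum_congr rfl fun i _ => ?_
    simp only [e, dif_pos i.2]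
  have hK : (0 : ℝ) < 2 * (K + 1) := by positivity
  choose g g' hg hg' hd using fun k => xdee_dense (e k) (ε / (2 * (K + 1))) (by positivity)
  have h3 : ∀ h : ℕ, ‖∑ k ∈ range K, (z k ^ h) • (e k - g' k)‖ ≤ ε / 2 := by
    intro h
    refine (norm_sum_le _ _).trans ?_
    have h4 : ∀ k ∈ range K, ‖(z k ^ h) • (e k - g' k)‖ ≤ ε / (2 * (K + 1)) := by
      intro k _
      rw [norm_smul, norm_pow, hzn, one_pow, one_mul]
      exact hd k
    refine (Finset.sum_le_sum h4).trans ?_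
    rw [Finset.sum_const, card_range, nsmul_eq_mul, ← mul_div_assoc, div_le_div_iff₀ hK two_pos]
    nlinarith
  refine ⟨K, z, g, g', hzn, hg, hg', fun h => ⟨?_, ?_⟩⟩
  · have h1 : (W ^ h) f - ∑ k ∈ range K, (z k ^ h) • g' k =
        (W ^ h) (f - s) + ∑ k ∈ range K, (z k ^ h) • (e k - g' k) := by
      have h2 : (W ^ h) s = ∑ k ∈ range K, (z k ^ h) • e k := by
        rw [← hse, map_sum]
        exact Finset.sum_congr rfl fun k _ => xdee_pow (he k) h
      rw [map_sub, h2]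
      simp only [smul_sub, Finset.sum_sub_distrib]
      abel
    rw [h1]
    refine (norm_add_le _ _).trans ?_
    rw [xdee_norm hW]
    have := h3 h
    linarith
  · have h1 : (W ^ h) (∑ k ∈ range K, g' k) - ∑ k ∈ range K, (z k ^ h) • g' k =
        (∑ k ∈ range K, (z k ^ h) • (e k - g' k)) -
          (W ^ h) (∑ k ∈ range K, (z k ^ 0) • (e k - g' k)) := by
      have h2 : (W ^ h) (∑ k ∈ range K, e k) = ∑ k ∈ range K, (z k ^ h) • e k := by
        rw [map_sum]
        exact Finset.sum_congr rfl fun k _ => xdee_pow (he k) h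
      simp only [pow_zero, one_smul, smul_sub, Finset.sum_sub_distrib, map_sub]
      rw [h2]
      abel
    rw [h1]
    refine (norm_sub_le _ _).trans ?_
    rw [xdee_norm hW]
    have h5 := h3 h
    have h6 := h3 0
    linarith

end Pool.Agent.Helper16.BZ
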