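import Pool.Agent.Helper11.BZ.PTB2
import Pool.Agent.Helper15.BZ.KT2
import Pool.Agent.Helper16.AZ.All
import Pool.Agent.Helper16.BZ.Fin
import Pool.Agent.Helper16.BZ.Stmts
import Pool.Agent.Helper16.BZ.XAHO
import Pool.Agent.Helper16.BZ.XATA
import Pool.Agent.Helper16.BZ.XDEC
import Pool.Agent.Helper16.BZ.XDEE
import Pool.Agent.Helper2.BZ.CTH2
import Pool.Agent.Helper20.BZ.VIN
import Pool.Agent.Helper24.BZ.PES
import Pool.Agent.Helper30.BZ.AEQ
import Pool.Agent.Helper35.BZ.PDC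
import Pool.Agent.Helper4.BZ.GSQ
import Pool.Agent.Helper41.BZ.PPB
import Pool.Agent.Helper42.BZ.AMP
import Pool.Agent.Helper42.BZ.WPW2
import Pool.Agent.Helper47.BZ.RMF2
import Pool.Agent.Helper49.BZ.THB
import Pool.Agent.Helper51.BZ.AGR
import Pool.Agent.Helper52.BZ.XTH2
import Pool.Agent.Helper53.BZ.PDT
import Pool.Agent.Helper61.BZ.GAM2
import Pool.Agent.Helper63.BZ.XSW2
import Pool.Agent.Helper67.BZ.ATM2
import Pool.Agent.Helper68.BZ.ASY2
import Pool.Agent.Helper7.BZ.XPR2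
import Pool.Agent.Helper71.BZ.PTC2
import Pool.Agent.Helper72.BZ.CNT2
import Pool.Agent.Helper79.BZ.WOP2
import Pool.Agent.Helper81.BZ.CIT2
import Pool.Agent.Helper83.BZ.PO
import Pool.Agent.Helper93.BZ.CSP2
import Pool.Agent.Helper93.BZ.XGR2

/-!
Assembly of the modules: compact group extensions of minimal affine maps of the torus.
-/

namespace Pool.Agent.Helper16.BZ

universe u

theorem all_KT2 : ST_KT2 := st_KT2 Pool.Agent.Helper16.MD.st_TKA

theorem all_GAM2 : ST_GAM2 := st_GAM2 AZ.all_VDH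

theorem all_ASY2 : ST_ASY2 := st_ASY2

theorem all_WOP2 : ST_WOP2 := st_WOP2

theorem all_WPW2 : ST_WPW2 := st_WPW2

theorem all_DEE2 : ST_DEE2 := xst_DEE2

theorem all_PPB : ST_PPB := st_PPB Pool.Agent.Helper16.MD.all_SAP Pool.Agent.Helper17.SO.st_MER

theorem all_GSQ : ST_GSQ := st_GSQ

theorem all_VIN : ST_VIN := st_VIN

theorem all_PES : ST_PES := st_PES all_PPB all_GSQ all_VIN

theorem all_ATA2 : ST_ATA2 := xst_ATA2 all_PES

theorem all_ATM2 : ST_ATM2 := st_ATM2 AZ.all_MSR all_ATA2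

theorem all_DEC2 : ST_DEC2 := xst_DEC2 all_WOP2 all_WPW2 all_ATM2 all_DEE2

theorem all_PTB2 : ST_PTB2 := st_PTB2 AZ.all_MRF

theorem all_PTC2 : ST_PTC2 := st_PTC2 all_KT2 all_GAM2 all_ASY2 Pool.Agent.Helper16.MD.all_WND

theorem all_THB : ST_THB := st_THB all_DEC2 all_PTB2 all_PTC2

theorem all_AHO : ST_AHO := xst_AHO

theorem all_AMP : ST_AMP := st_AMP

theorem all_AGR : ST_AGR := st_AGR

theorem all_PO : ST_PO := st_PO AZ.all_VDH

theorem all_AEQ : ST_AEQ := st_AEQ all_PO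

theorem all_PDT : ST_PDT := st_PDT all_PO

theorem all_CNT2 : ST_CNT2 := st_CNT2

theorem all_PDC : ST_PDC := st_PDC all_PDT all_CNT2 AZ.all_FPV AZ.all_TLR

theorem all_RMF2 : ST_RMF2.{u} := st_RMF2

theorem all_CIT2 : ST_CIT2.{u} := st_CIT2

theorem all_CTH2 : ST_CTH2.{u} := Pool.Agent.Helper2.BZ.CTH2.cthb_res all_RMF2 all_CIT2

theorem all_CSP2 : ST_CSP2.{u} := st_CSP2 all_CTH2

theorem all_XPR2 : ST_XPR2 := st_XPR2

theorem all_XSW2 : ST_XSW2 := st_XSW2 all_XPR2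

theorem all_XTH2 : ST_XTH2 := st_XTH2 all_CSP2 all_XSW2

theorem all_XGR2 : ST_XGR2 := st_XGR2 all_XTH2

theorem all_good {r : ℕ} (A : Matrix (Fin r) (Fin r) ℤ) (β : UnitAddTorus (Fin r))
    (h : BZP.Min A β) : Good (BZP.aff A β) :=
  fin_good all_THB all_AHO all_AMP all_AGR all_AEQ all_PDC A β h

end Pool.Agent.Helper16.BZ
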