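import Pool.Agent.Helper16.AZ.Defs
import Pool.Agent.Helper16.MD.Defs

/-!
Moebius disjointness of compact group extensions of minimal affine transformations of the torus:
definitions for the modules (MP_7a8f48_an).
-/

open Finset Filter MeasureTheory Topology
open scoped ComplexConjugate

namespace Pool.Agent.Helper16.BZ

open Pool.Agent.Helper16.AZ (T E Op mm unitary_norm unitary_inner unitary_star inner_star)
open Pool.Agent.Helper16.MD (MS PB Rich)

/-! ### dynamical systems `S : X → X` with a probability measure -/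

section defs

variable {X : Type} {d : ℕ}

/-- the cocycle `φ(S^(n-1) x) ⋯ φ(S x) φ(x)` -/
noncomputable def co (S : X → X) (φ : X → Op d) : ℕ → X → Op d
  | 0, _ => 1
  | n + 1, x => φ (S^[n] x) * co S φ n x

/-- the powers of the operator `b ↦ φ* (b ∘ S)` -/
noncomputable def Wk (S : X → X) (φ : X → Op d) (k : ℕ) (b : X → E d) (x : X) : E d :=
  star (co S φ k x) (b (S^[k] x))

/-- inner products of the iterates -/
noncomputable def EE (S : X → X) (φ : X → Op d) (b : X → E d) (k k' : ℕ) (x : X) : ℂ :=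
  inner ℂ (Wk S φ k b x) (Wk S φ k' b x)

/-- the sequence -/
noncomputable def ff (S : X → X) (φ : X → Op d) (b : X → E d) (u : E d) (x : X) (n : ℕ) : ℂ :=
  inner ℂ (b (S^[n] x)) (co S φ n x u)

variable [MetricSpace X]

/-- the values of `φ` are unitary and `φ` is continuous -/
def UC (φ : X → Op d) : Prop := Continuous φ ∧ ∀ x, φ x ∈ unitary (Op d)

/-- the modulus of continuity of `φ` is `o(1 / log (1 / t))` -/
def LM (φ : X → Op d) : Prop := ∀ ε : ℝ, 0 < ε → ∃ t₀ : ℝ, 0 < t₀ ∧ t₀ < 1 ∧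
  ∀ t : ℝ, 0 < t → t ≤ t₀ → ∀ x y : X, dist x y ≤ t → ‖φ x - φ y‖ ≤ ε / (-Real.log t)

/-- polynomial growth of the distances -/
def GR (S : X → X) : Prop := ∃ (C : ℝ) (k : ℕ), 1 ≤ C ∧ ∀ (n : ℕ) (x y : X),
  dist (S^[n] x) (S^[n] y) ≤ C * ((n : ℝ) + 1) ^ k * dist x y

variable [MeasurableSpace X]

/-- equidistribution of the orbits of all powers of `S` -/
def EQ (S : X → X) (m : Measure X) : Prop := ∀ p : ℕ, 1 ≤ p → ∀ F : X → ℂ, Continuous F →
  ∀ x : X, Tendsto (fun N : ℕ => (∑ n ∈ range N, F (S^[p * n] x)) / (N : ℂ)) atTop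
    (𝓝 (∫ y, F y ∂m))

/-- functions which vary slowly do not correlate along the multiples of the primes of a block -/
def PD (S : X → X) (m : Measure X) : Prop := ∀ κ : ℝ, 0 < κ → ∃ ε δ : ℝ, 0 < ε ∧ 0 < δ ∧
  ∃ I₀ : ℕ, ∀ i : ℕ, I₀ ≤ i → Rich 1 i → ∀ Q ⊆ PB 1 i, ∀ F : ℕ → X → ℂ,
  (∀ p ∈ Q, Continuous (F p) ∧ (∀ x, ‖F p x‖ ≤ 1) ∧
    ∀ x y : X, dist x y ≤ Real.exp (-ε * 2 ^ i) → ‖F p x - F p y‖ ≤ δ) →
  ∀ x : X, ∀ᶠ M : ℕ in atTop, ∑ y ∈ Icc 1 M, ‖∑ p ∈ Q, F p (S^[p * y] x)‖ ^ 2 ≤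
    (‖∑ p ∈ Q, ∫ y, F p y ∂m‖ ^ 2 + κ * ((PB 1 i).card : ℝ) ^ 2) * M

/-- `W` acts by `b ↦ φ* (b ∘ S)` -/
def Act (S : X → X) (m : Measure X) (φ : X → Op d)
    (W : Lp (E d) 2 m →L[ℂ] Lp (E d) 2 m) : Prop :=
  ∀ f : Lp (E d) 2 m, ∀ᵐ x ∂m, (W f : X → E d) x = star (φ x) ((f : X → E d) (S x))

end defs

/-! ### affine maps of the torus -/

/-- `S` is the affine map `x ↦ A x + β` -/
def Aff {r : ℕ} (A : Matrix (Fin r) (Fin r) ℤ) (β : T r) (S : T r → T r) : Prop :=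
  ∀ (x : T r) (i : Fin r), S x i = (∑ j, A i j • x j) + β i

/-- the matrix is unipotent and the map is minimal: `X · β ≠ 0` for every integer vector `X ≠ 0`
with `X A = X` -/
def Min {r : ℕ} (A : Matrix (Fin r) (Fin r) ℤ) (β : T r) : Prop :=
  (A - 1) ^ r = 0 ∧ ∀ X : Fin r → ℤ, X ≠ 0 → Matrix.vecMul X A = X → ∑ i, X i • β i ≠ 0

/-- Fourier coefficients with respect to `m` -/
noncomputable def fc {r : ℕ} (F : T r → ℂ) (X : Fin r → ℤ) : ℂ :=
  ∫ θ, UnitAddTorus.mFourier (-X) θ * F θ ∂(mm r)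

/-! ### basic facts -/

section basic

variable {X : Type} {d : ℕ} (S : X → X) (φ : X → Op d)

@[simp] theorem co_zero (x : X) : co S φ 0 x = 1 := rfl

theorem co_succ (n : ℕ) (x : X) : co S φ (n + 1) x = φ (S^[n] x) * co S φ n x := rfl

theorem co_add (m n : ℕ) (x : X) : co S φ (m + n) x = co S φ m (S^[n] x) * co S φ n x := by
  induction m with
  | zero => simp
  | succ m ih =>
    have h : m + 1 + n = (m + n) + 1 := by omega
    rw [h, co_succ, ih, Function.iterate_add_apply, co_succ S φ m (S^[n] x), mul_assoc]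

theorem co_unitary (h : ∀ x, φ x ∈ unitary (Op d)) (n : ℕ) (x : X) :
    co S φ n x ∈ unitary (Op d) := by
  induction n with
  | zero => exact one_mem _
  | succ n ih => exact mul_mem (h _) ih

theorem co_continuous [TopologicalSpace X] (hS : Continuous S) (h : Continuous φ) (n : ℕ) :
    Continuous (co S φ n) := by
  induction n with
  | zero => exact continuous_const
  | succ n ih => exact (h.comp (hS.iterate n)).mul ih

variable (b : X → E d)

@[simp] theorem Wk_zero (x : X) : Wk S φ 0 b x = b x := by simp [Wk]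

theorem Wk_one (x : X) : Wk S φ 1 b x = star (φ x) (b (S x)) := by simp [Wk, co_succ]

theorem Wk_add (m n : ℕ) (x : X) :
    Wk S φ (m + n) b x = star (co S φ n x) (Wk S φ m b (S^[n] x)) := by
  unfold Wk
  rw [co_add, star_mul, Function.iterate_add_apply]
  rfl

theorem Wk_comp (m n : ℕ) (x : X) : Wk S φ (m + n) b x = Wk S φ n (Wk S φ m b) x :=
  Wk_add S φ b m n x

theorem Wk_norm (h : ∀ x, φ x ∈ unitary (Op d)) (k : ℕ) (x : X) :
    ‖Wk S φ k b x‖ = ‖b (S^[k] x)‖ :=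
  unitary_norm (unitary_star (co_unitary S φ h k x)) _

theorem Wk_continuous [TopologicalSpace X] (hS : Continuous S) (h : Continuous φ)
    (hb : Continuous b) (k : ℕ) : Continuous (Wk S φ k b) := by
  unfold Wk
  have h1 : Continuous fun x => star (co S φ k x) :=
    (ContinuousLinearMap.adjoint : Op d ≃ₗᵢ⋆[ℂ] Op d).continuous.comp (co_continuous S φ hS h k)
  exact h1.clm_apply (hb.comp (hS.iterate k))

theorem ff_eq (u : E d) (x : X) (n : ℕ) : ff S φ b u x n = inner ℂ (Wk S φ n b x) u := by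
  unfold ff Wk
  rw [inner_star]

theorem ff_add (u : E d) (x : X) (m n : ℕ) :
    ff S φ b u x (m + n) = inner ℂ (Wk S φ m b (S^[n] x)) (co S φ n x u) := by
  rw [ff_eq, Wk_add, inner_star]

theorem ff_norm (h : ∀ x, φ x ∈ unitary (Op d)) (u : E d) (x : X) (n : ℕ) (B : ℝ)
    (hb : ∀ x, ‖b x‖ ≤ B) (hu : ‖u‖ ≤ 1) : ‖ff S φ b u x n‖ ≤ B := by
  unfold ff
  refine (norm_inner_le_norm _ _).trans ?_
  rw [unitary_norm (co_unitary S φ h n x)]
  have h0 : 0 ≤ ‖b (S^[n] x)‖ := norm_nonneg _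
  nlinarith [hb (S^[n] x), norm_nonneg u]

theorem ff_norm' (h : ∀ x, φ x ∈ unitary (Op d)) (u : E d) (x : X) (n : ℕ) (hu : ‖u‖ ≤ 1) :
    ‖ff S φ b u x n‖ ≤ ‖b (S^[n] x)‖ := by
  unfold ff
  refine (norm_inner_le_norm _ _).trans ?_
  rw [unitary_norm (co_unitary S φ h n x)]
  have h0 : 0 ≤ ‖b (S^[n] x)‖ := norm_nonneg _
  nlinarith [norm_nonneg u]

theorem EE_continuous [TopologicalSpace X] (hS : Continuous S) (h : Continuous φ)
    (hb : Continuous b) (k k' : ℕ) : Continuous (EE S φ b k k') :=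
  (Wk_continuous S φ b hS h hb k).inner (Wk_continuous S φ b hS h hb k')

theorem EE_norm (h : ∀ x, φ x ∈ unitary (Op d)) (V : ℝ) (hb : ∀ x, ‖b x‖ ≤ V) (k k' : ℕ)
    (x : X) : ‖EE S φ b k k' x‖ ≤ V ^ 2 := by
  refine (norm_inner_le_norm _ _).trans ?_
  rw [Wk_norm S φ b h, Wk_norm S φ b h, pow_two]
  exact mul_le_mul (hb _) (hb _) (norm_nonneg _) ((norm_nonneg _).trans (hb x))

theorem EE_shift (h : ∀ x, φ x ∈ unitary (Op d)) (k k' n : ℕ) (x : X) :
    inner ℂ (Wk S φ (k + n) b x) (Wk S φ (k' + n) b x) = EE S φ b k k' (S^[n] x) := by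
  rw [Wk_add, Wk_add, unitary_inner (unitary_star (co_unitary S φ h n x))]
  rfl

end basic

end Pool.Agent.Helper16.BZ
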